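import Pool.Agent.Work.MP_80a07b_an.Core

open Topology Filter

namespace Pool.Agent.Work.MP_80a07b_an

theorem exists_countable_infinite_subgroup {Γ : Type*} [Group Γ] (G : Subgroup Γ)
    (hG : Infinite G) : ∃ H : Subgroup Γ, H ≤ G ∧ Countable H ∧ Infinite H := by
  classical
  let f : ℕ → Γ := fun n => (Infinite.natEmbedding G n : Γ)
  have hf : Function.Injective f := by
    intro a b hab
    exact (Infinite.natEmbedding G).injective (Subtype.ext hab)
  refine ⟨Subgroup.closure (Set.range f), ?_, ?_, ?_⟩
  · rw [Subgroup.closure_le]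
    rintro _ ⟨n, rfl⟩
    exact (Infinite.natEmbedding G n).2
  · rw [← FreeGroup.range_lift_eq_closure]
    have : Countable (FreeGroup ℕ) := FreeGroup.toWord_injective.countable
    have : (Set.range (FreeGroup.lift f)).Countable := Set.countable_range _
    exact this.to_subtype
  · let e : ℕ → (Subgroup.closure (Set.range f) : Subgroup Γ) :=
      fun n => ⟨f n, Subgroup.subset_closure ⟨n, rfl⟩⟩
    refine Infinite.of_injective e fun a b hab => ?_
    have h1 : (e a).1 = (e b).1 := by rw [hab]
    exact hf h1

variable {𝕜 : Type*} [RCLike 𝕜] {X : Type*} [NormedAddCommGroup X] [NormedSpace 𝕜 X]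

/-- A bounded group of compact perturbations of the identity of a reflexive space whose identity
is isolated for the topology of pointwise convergence is finite. -/
theorem finite_of_compact_perturbation
    (hrefl : Function.Surjective (NormedSpace.inclusionInDoubleDual 𝕜 X))
    (G : Subgroup (X →L[𝕜] X)ˣ)
    (C : ℝ) (hC : ∀ g ∈ G, ‖(g : X →L[𝕜] X)‖ ≤ C)
    (hcpt : ∀ g ∈ G, IsCompactOperator ⇑((g : X →L[𝕜] X) - 1))
    (s : Finset X) (ε : ℝ) (hε : 0 < ε)
    (hs : ∀ h ∈ G, (∀ x ∈ s, ‖(h : X →L[𝕜] X) x - x‖ < ε) → h = 1) :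
    Finite G := by
  by_contra hinf
  rw [not_finite_iff_infinite] at hinf
  obtain ⟨H, hHG, hHc, hHi⟩ := exists_countable_infinite_subgroup G hinf
  have := finite_of_countable hrefl H (max C 1) (le_max_right _ _)
    (fun g hg => (hC g (hHG hg)).trans (le_max_left _ _)) (fun g hg => hcpt g (hHG hg)) s ε hε
    (fun h hh => hs h (hHG hh))
  exact not_finite H

/-- An operator with values in a finite-dimensional subspace is compact. -/
theorem isCompactOperator_of_range_subset (F : X →L[𝕜] X) (V : Submodule 𝕜 X)
    [FiniteDimensional 𝕜 V] (h : ∀ x, F x ∈ V) : IsCompactOperator ⇑F := by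
  have : ProperSpace V := FiniteDimensional.proper 𝕜 V
  have h1 : IsCompactOperator ⇑(F.codRestrict V h) :=
    isCompactOperator_of_locallyCompactSpace_dom (F.codRestrict V h)
  exact h1.clm_comp V.subtypeL

end Pool.Agent.Work.MP_80a07b_an
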