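import Mathlib

open Topology Filter

namespace Pool.Agent.Work.MP_80a07b_an

/-- Existence of minimal nonempty closed invariant subsets of a compact set. -/
theorem exists_minimal {W Γ : Type*} [TopologicalSpace W] [T2Space W] (K : Set W)
    (hK : IsCompact K) (hne : K.Nonempty) (φ : Γ → W → W) (hinv : ∀ γ, Set.MapsTo (φ γ) K K) :
    ∃ M ⊆ K, IsClosed M ∧ M.Nonempty ∧ (∀ γ, Set.MapsTo (φ γ) M M) ∧
      ∀ N ⊆ M, IsClosed N → N.Nonempty → (∀ γ, Set.MapsTo (φ γ) N N) → M ⊆ N := by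
  let S : Set (Set W) := { N | N ⊆ K ∧ IsClosed N ∧ N.Nonempty ∧ ∀ γ, Set.MapsTo (φ γ) N N }
  obtain ⟨M, hMK, hM⟩ := zorn_superset_nonempty S (by
    intro c hcS hc hcne
    refine ⟨⋂₀ c, ⟨?_, ?_, ?_, ?_⟩, fun s hs => Set.sInter_subset_of_mem hs⟩
    · obtain ⟨s, hs⟩ := hcne
      exact (Set.sInter_subset_of_mem hs).trans (hcS hs).1
    · exact isClosed_sInter fun t ht => (hcS ht).2.1
    · rw [Set.sInter_eq_iInter]
      have : Nonempty c := hcne.coe_sort
      refine IsCompact.nonempty_iInter_of_directed_nonempty_isCompact_isClosed _ ?_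
        (fun i => (hcS i.2).2.2.1)
        (fun i => hK.of_isClosed_subset (hcS i.2).2.1 (hcS i.2).1) (fun i => (hcS i.2).2.1)
      exact DirectedOn.directed_val (IsChain.directedOn hc.symm)
    · intro γ x hx
      rw [Set.mem_sInter] at hx ⊢
      exact fun t ht => (hcS ht).2.2.2 γ (hx t ht)) K ⟨subset_rfl, hK.isClosed, hne, hinv⟩
  refine ⟨M, hMK, hM.prop.2.1, hM.prop.2.2.1, hM.prop.2.2.2, ?_⟩
  intro N hNM hNc hNne hNinv
  exact hM.le_of_le ⟨hNM.trans hMK, hNc, hNne, hNinv⟩ hNM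

variable {𝕜 : Type*} [RCLike 𝕜] {X : Type*} [NormedAddCommGroup X] [NormedSpace 𝕜 X]

/-- Norm-closed real-convex sets are weakly closed. -/
theorem isClosed_weak_of_convex [NormedSpace ℝ X] [IsScalarTower ℝ 𝕜 X] {s : Set X}
    (hs : Convex ℝ s) (hc : IsClosed s) :
    IsClosed ((toWeakSpace 𝕜 X) '' s) := by
  have h2 := hs.toWeakSpace_closure 𝕜
  rw [hc.closure_eq] at h2
  rw [h2]
  exact isClosed_closure

theorem isClosed_weak_closedBall (c : X) (R : ℝ) :
    IsClosed ((toWeakSpace 𝕜 X) '' Metric.closedBall c R) := by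
  let : NormedSpace ℝ X := NormedSpace.restrictScalars ℝ 𝕜 X
  have : IsScalarTower ℝ 𝕜 X := RestrictScalars.isScalarTower ℝ 𝕜 X
  exact isClosed_weak_of_convex (convex_closedBall _ _) Metric.isClosed_closedBall

theorem isClosed_weak_submodule (S : Submodule 𝕜 X) :
    IsClosed ((toWeakSpace 𝕜 X) '' (closure (S : Set X))) := by
  let : NormedSpace ℝ X := NormedSpace.restrictScalars ℝ 𝕜 X
  have : IsScalarTower ℝ 𝕜 X := RestrictScalars.isScalarTower ℝ 𝕜 X
  refine isClosed_weak_of_convex ?_ isClosed_closure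
  have h : Convex ℝ (S : Set X) := (S.restrictScalars ℝ).convex
  exact h.closure

/-- Closed balls of a reflexive space are weakly compact. -/
theorem isCompact_weak_closedBall
    (hrefl : Function.Surjective (NormedSpace.inclusionInDoubleDual 𝕜 X)) (R : ℝ) :
    IsCompact ((toWeakSpace 𝕜 X) '' Metric.closedBall (0 : X) R) := by
  rw [← (isClosed_weak_closedBall (𝕜 := 𝕜) (0 : X) R).closure_eq]
  apply NormedSpace.isCompact_closure_of_isBounded
  · refine (Metric.isBounded_closedBall (x := (0 : X)) (r := R)).subset ?_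
    rintro x ⟨y, hy, hyx⟩
    have : y = x := (toWeakSpace 𝕜 X).injective hyx
    rw [← this]
    exact hy
  · intro φ _
    obtain ⟨x, hx⟩ := hrefl (WeakDual.toStrongDual φ)
    refine ⟨toWeakSpace 𝕜 X x, ?_⟩
    apply DFunLike.ext
    intro f
    have := congrArg (fun ψ => ψ f) hx
    exact this

/-- A compact operator turns weak convergence of a bounded family along an ultrafilter into norm
convergence. -/
theorem tendsto_of_compact {α : Type*} (u : Ultrafilter α) (K : X →L[𝕜] X)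
    (hK : IsCompactOperator K) (f : α → X) (R : ℝ) (hf : ∀ᶠ a in u, ‖f a‖ ≤ R) (y : X)
    (hy : Tendsto (fun a => toWeakSpace 𝕜 X (f a)) u (𝓝 (toWeakSpace 𝕜 X y))) :
    Tendsto (fun a => K (f a)) u (𝓝 (K y)) := by
  have hc : IsCompact (closure (K '' Metric.closedBall (0 : X) R)) :=
    hK.isCompact_closure_image_closedBall R
  have hle : ((u.map (fun a => K (f a)) : Ultrafilter X) : Filter X) ≤
      𝓟 (closure (K '' Metric.closedBall (0 : X) R)) := by
    rw [le_principal_iff]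
    simp only [Ultrafilter.coe_map, mem_map]
    filter_upwards [hf] with a ha
    apply subset_closure
    exact ⟨f a, by simpa using ha, rfl⟩
  obtain ⟨w, -, hw⟩ := hc.ultrafilter_le_nhds _ hle
  have hw' : Tendsto (fun a => K (f a)) u (𝓝 w) := hw
  have h1 : Tendsto (fun a => toWeakSpace 𝕜 X (K (f a))) u (𝓝 (toWeakSpace 𝕜 X w)) :=
    ((toWeakSpaceCLM 𝕜 X).continuous.tendsto w).comp hw'
  have h2 : Tendsto (fun a => toWeakSpace 𝕜 X (K (f a))) u (𝓝 (toWeakSpace 𝕜 X (K y))) :=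
    ((WeakSpace.map K).continuous.tendsto (toWeakSpace 𝕜 X y)).comp hy
  have h3 := tendsto_nhds_unique h1 h2
  have h4 : w = K y := (toWeakSpace 𝕜 X).injective h3
  rwa [h4] at hw'

/-- The action of a bounded operator on finite families of points, with the weak topology. -/
noncomputable def act (ι : Type*) (g : X →L[𝕜] X) : (ι → WeakSpace 𝕜 X) → (ι → WeakSpace 𝕜 X) :=
  fun z i => WeakSpace.map g (z i)

theorem continuous_act (ι : Type*) (g : X →L[𝕜] X) : Continuous (act (𝕜 := 𝕜) ι g) :=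
  continuous_pi fun i => (WeakSpace.map g).continuous.comp (continuous_apply i)

theorem act_apply {ι : Type*} (g : X →L[𝕜] X) (z : ι → X) :
    act ι g (fun i => toWeakSpace 𝕜 X (z i)) = fun i => toWeakSpace 𝕜 X (g (z i)) := rfl

theorem act_mul {ι : Type*} (g h : X →L[𝕜] X) (z : ι → WeakSpace 𝕜 X) :
    act ι (g * h) z = act ι g (act ι h z) := rfl

theorem act_one {ι : Type*} (z : ι → WeakSpace 𝕜 X) :
    act ι (1 : X →L[𝕜] X) z = z := rfl

/-- Main step: countable groups. -/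
theorem finite_of_countable
    (hrefl : Function.Surjective (NormedSpace.inclusionInDoubleDual 𝕜 X))
    (G : Subgroup (X →L[𝕜] X)ˣ) [Countable G]
    (C : ℝ) (hC1 : 1 ≤ C) (hC : ∀ g ∈ G, ‖(g : X →L[𝕜] X)‖ ≤ C)
    (hcpt : ∀ g ∈ G, IsCompactOperator ⇑((g : X →L[𝕜] X) - 1))
    (s : Finset X) (ε : ℝ) (hε : 0 < ε)
    (hs : ∀ h ∈ G, (∀ x ∈ s, ‖(h : X →L[𝕜] X) x - x‖ < ε) → h = 1) :
    Finite G := by
  classical
  by_contra hinf
  rw [not_finite_iff_infinite] at hinf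
  let ι := {x : X // x ∈ s}
  let x₀ : ι → WeakSpace 𝕜 X := fun i => toWeakSpace 𝕜 X i
  let φ : G → (ι → WeakSpace 𝕜 X) → (ι → WeakSpace 𝕜 X) := fun g => act ι (g.1 : X →L[𝕜] X)
  have hφc : ∀ g, Continuous (φ g) := fun g => continuous_act ι _
  have hφmul : ∀ g h z, φ (g * h) z = φ g (φ h z) := fun g h z => rfl
  have hφone : ∀ z, φ 1 z = z := fun z => rfl
  let O : Set (ι → WeakSpace 𝕜 X) := Set.range fun g : G => φ g x₀
  let K := closure O
  -- boundedness
  obtain ⟨R, hR0, hR⟩ : ∃ R : ℝ, 0 ≤ R ∧ ∀ x ∈ s, C * ‖x‖ ≤ R := by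
    refine ⟨∑ x ∈ s, C * ‖x‖, Finset.sum_nonneg fun x _ => by positivity, fun x hx => ?_⟩
    exact Finset.single_le_sum (f := fun x => C * ‖x‖) (fun x _ => by positivity) hx
  have hObd : ∀ (g : G) (i : ι), ‖(g.1 : X →L[𝕜] X) i‖ ≤ R := by
    intro g i
    refine le_trans ?_ (hR i.1 i.2)
    exact ((g.1 : X →L[𝕜] X).le_opNorm _).trans
      (mul_le_mul_of_nonneg_right (hC g.1 g.2) (norm_nonneg _))
  let B : Set (ι → WeakSpace 𝕜 X) :=
    Set.pi Set.univ fun _ => (toWeakSpace 𝕜 X) '' Metric.closedBall (0 : X) R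
  have hBc : IsCompact B := isCompact_univ_pi fun _ => isCompact_weak_closedBall hrefl R
  have hOB : O ⊆ B := by
    rintro _ ⟨g, rfl⟩ i _
    exact ⟨(g.1 : X →L[𝕜] X) i, by simpa using hObd g i, rfl⟩
  have hKB : K ⊆ B := closure_minimal hOB hBc.isClosed
  have hKc : IsCompact K := hBc.of_isClosed_subset isClosed_closure hKB
  have hKne : K.Nonempty := ⟨x₀, subset_closure ⟨1, rfl⟩⟩
  have hKinv : ∀ g : G, Set.MapsTo (φ g) K K := by
    intro g
    refine Set.MapsTo.closure ?_ (hφc g)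
    rintro _ ⟨h, rfl⟩
    exact ⟨g * h, rfl⟩
  -- separable hull
  let Y : Submodule 𝕜 X := Submodule.span 𝕜 (Set.range fun p : G × ι => (p.1.1 : X →L[𝕜] X) p.2)
  have hYsep : TopologicalSpace.IsSeparable (closure (Y : Set X)) := by
    apply TopologicalSpace.IsSeparable.closure
    apply TopologicalSpace.IsSeparable.span
    exact (Set.countable_range _).isSeparable
  have hKY : K ⊆ Set.pi Set.univ fun _ => (toWeakSpace 𝕜 X) '' (closure (Y : Set X)) := by
    refine closure_minimal ?_ (isClosed_set_pi fun _ _ => isClosed_weak_submodule Y)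
    rintro _ ⟨g, rfl⟩ i _
    exact ⟨(g.1 : X →L[𝕜] X) i, subset_closure (Submodule.subset_span ⟨(g, i), rfl⟩), rfl⟩
  -- separation
  have hsep0 : ∀ T : G, T ≠ 1 → ∀ g : G,
      ∃ i : ι, ε ≤ C * ‖((T.1 : X →L[𝕜] X) - 1) ((g.1 : X →L[𝕜] X) i)‖ := by
    intro T hT g
    by_contra hcon
    push Not at hcon
    apply hT
    have h1 : g⁻¹ * T * g = 1 := by
      apply Subtype.ext
      refine hs (g⁻¹ * T * g).1 (g⁻¹ * T * g).2 fun x hx => ?_
      have h2 := hcon ⟨x, hx⟩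
      have h3 : (((g⁻¹ * T * g).1 : (X →L[𝕜] X)ˣ) : X →L[𝕜] X) x - x =
          ((g⁻¹).1 : X →L[𝕜] X) (((T.1 : X →L[𝕜] X) - 1) ((g.1 : X →L[𝕜] X) x)) := by
        have h4 : ((g⁻¹).1 : X →L[𝕜] X) ((g.1 : X →L[𝕜] X) x) = x := by
          have : ((g⁻¹ * g : G).1 : X →L[𝕜] X) x = x := by
            rw [inv_mul_cancel]; rfl
          exact this
        rw [sub_apply, map_sub, one_apply_eq_self, h4]
        rfl
      rw [h3]
      refine lt_of_le_of_lt ?_ h2
      exact (((g⁻¹).1 : X →L[𝕜] X).le_opNorm _).trans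
        (mul_le_mul_of_nonneg_right (hC _ (g⁻¹).2) (norm_nonneg _))
    calc T = g * (g⁻¹ * T * g) * g⁻¹ := by group
      _ = 1 := by rw [h1]; group
  have hsep : ∀ T : G, T ≠ 1 → ∀ z ∈ K,
      ∃ i : ι, ε ≤ C * ‖((T.1 : X →L[𝕜] X) - 1) ((toWeakSpace 𝕜 X).symm (z i))‖ := by
    intro T hT z hz
    by_contra hcon
    push Not at hcon
    obtain ⟨u, hOu, huz⟩ := mem_closure_iff_ultrafilter.1 hz
    have key : ∀ i : ι, ∀ᶠ w in (u : Filter (ι → WeakSpace 𝕜 X)),
        C * ‖((T.1 : X →L[𝕜] X) - 1) ((toWeakSpace 𝕜 X).symm (w i))‖ < ε := by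
      intro i
      have h1 : Tendsto (fun w : ι → WeakSpace 𝕜 X => w i) u (𝓝 (z i)) :=
        ((continuous_apply i).tendsto z).mono_left huz
      have h2 := tendsto_of_compact u ((T.1 : X →L[𝕜] X) - 1) (hcpt T.1 T.2)
        (fun w : ι → WeakSpace 𝕜 X => (toWeakSpace 𝕜 X).symm (w i)) R (by
          filter_upwards [hOu] with w hw
          obtain ⟨g, rfl⟩ := hw
          exact hObd g i) ((toWeakSpace 𝕜 X).symm (z i)) h1
      have h3 := (h2.norm).const_mul C
      exact h3.eventually_lt_const (hcon i)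
    have key2 : ∀ᶠ w in (u : Filter (ι → WeakSpace 𝕜 X)), ∀ i : ι,
        C * ‖((T.1 : X →L[𝕜] X) - 1) ((toWeakSpace 𝕜 X).symm (w i))‖ < ε :=
      eventually_all.2 key
    obtain ⟨w, hw1, hw2⟩ := (key2.and hOu).exists
    obtain ⟨g, rfl⟩ := hw2
    obtain ⟨i, hi⟩ := hsep0 T hT g
    exact absurd (hw1 i) (not_lt.2 hi)
  -- minimal set
  obtain ⟨M, hMK, hMcl, ⟨y, hyM⟩, hMinv, hMmin⟩ := exists_minimal K hKc hKne φ hKinv
  have hMc : IsCompact M := hKc.of_isClosed_subset hMcl hMK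
  have : CompactSpace M := isCompact_iff_compactSpace.1 hMc
  have : Nonempty M := ⟨⟨y, hyM⟩⟩
  -- Baire
  obtain ⟨D, hDc, hD⟩ := hYsep
  have : Countable D := hDc.to_subtype
  set δ : ℝ := ε / (4 * C ^ 2) with hδ
  have hδ0 : 0 < δ := by positivity
  let F : (ι → D) → Set M := fun d =>
    {z | ∀ i, z.1 i ∈ (toWeakSpace 𝕜 X) '' Metric.closedBall (d i : X) δ}
  have hFc : ∀ d, IsClosed (F d) := by
    intro d
    have : F d = ⋂ i, (fun z : M => z.1 i) ⁻¹'
        ((toWeakSpace 𝕜 X) '' Metric.closedBall (d i : X) δ) := by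
      ext z; simp [F]
    rw [this]
    exact isClosed_iInter fun i => (isClosed_weak_closedBall (d i : X) δ).preimage
      ((continuous_apply i).comp continuous_subtype_val)
  have hFU : ⋃ d, F d = Set.univ := by
    rw [Set.eq_univ_iff_forall]
    intro z
    have hz := hKY (hMK z.2)
    have : ∀ i : ι, ∃ d : D, z.1 i ∈ (toWeakSpace 𝕜 X) '' Metric.closedBall (d : X) δ := by
      intro i
      obtain ⟨w, hw, hwz⟩ := hz i (Set.mem_univ i)
      obtain ⟨d, hdD, hd⟩ := Metric.mem_closure_iff.1 (hD hw) δ hδ0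
      exact ⟨⟨d, hdD⟩, w, by simpa using hd.le, hwz⟩
    choose d hd using this
    exact Set.mem_iUnion.2 ⟨d, hd⟩
  obtain ⟨d, hd⟩ := nonempty_interior_of_iUnion_of_closed hFc hFU
  obtain ⟨V, hVo, hV⟩ := isOpen_induced_iff.1 (isOpen_interior (s := F d))
  -- minimality: every orbit enters `V`
  have hcover : ∀ z ∈ M, ∃ g : G, φ g z ∈ V := by
    by_contra hcon
    push Not at hcon
    obtain ⟨z, hzM, hz⟩ := hcon
    let N : Set (ι → WeakSpace 𝕜 X) := M ∩ ⋂ g : G, (φ g) ⁻¹' Vᶜ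
    have hN : M ⊆ N := by
      refine hMmin N Set.inter_subset_left ?_ ⟨z, hzM, ?_⟩ ?_
      · exact hMcl.inter (isClosed_iInter fun g => hVo.isClosed_compl.preimage (hφc g))
      · simpa using fun g hg => hz ⟨_, hg⟩
      · rintro g w ⟨hwM, hw⟩
        refine ⟨hMinv g hwM, ?_⟩
        simp only [Set.mem_iInter, Set.mem_preimage, Set.mem_compl_iff] at hw ⊢
        intro h
        rw [← hφmul]
        exact hw _
    obtain ⟨w, hw⟩ := hd
    have hwV : w.1 ∈ V := by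
      have : w ∈ Subtype.val ⁻¹' V := by rw [hV]; exact hw
      exact this
    have h2 := (hN w.2).2
    simp only [Set.mem_iInter, Set.mem_preimage, Set.mem_compl_iff] at h2
    exact h2 1 hwV
  obtain ⟨t, ht⟩ := hMc.elim_finite_subcover (fun g : G => (φ g) ⁻¹' V)
    (fun g => hVo.preimage (hφc g)) (fun z hz => by
      obtain ⟨g, hg⟩ := hcover z hz
      exact Set.mem_iUnion.2 ⟨g, hg⟩)
  have hchoose : ∀ g : G, ∃ γ : t, φ γ.1 (φ g y) ∈ V := by
    intro g
    have := ht (hMinv g hyM)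
    simp only [Set.mem_iUnion] at this
    obtain ⟨γ, hγ, hγ2⟩ := this
    exact ⟨⟨γ, hγ⟩, hγ2⟩
  choose γ hγ using hchoose
  obtain ⟨g, h, hgh, hγgh⟩ := Finite.exists_ne_map_eq_of_infinite γ
  have hball : ∀ g : G, ∀ i : ι,
      ‖(((γ g).1 * g : G).1 : X →L[𝕜] X) ((toWeakSpace 𝕜 X).symm (y i)) - d i‖ ≤ δ := by
    intro g i
    have h1 : φ (γ g).1 (φ g y) ∈ M := hMinv _ (hMinv _ hyM)
    have h2 : (⟨_, h1⟩ : M) ∈ interior (F d) := by rw [← hV]; exact hγ g
    obtain ⟨w, hw, hw2⟩ := interior_subset h2 i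
    rw [Metric.mem_closedBall, dist_eq_norm] at hw
    have h3 : w = (((γ g).1 * g : G).1 : X →L[𝕜] X) ((toWeakSpace 𝕜 X).symm (y i)) :=
      (toWeakSpace 𝕜 X).injective hw2
    rw [← h3]
    exact hw
  set T : G := h⁻¹ * g with hTdef
  have hT1 : T ≠ 1 := by
    intro hT
    apply hgh
    rw [hTdef, inv_mul_eq_one] at hT
    exact hT.symm
  obtain ⟨i, hi⟩ := hsep T hT1 y (hMK hyM)
  set yi : X := (toWeakSpace 𝕜 X).symm (y i) with hyi
  set a : G := (γ h).1 * h with ha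
  have h5 : (T.1 : X →L[𝕜] X) yi = ((a⁻¹).1 : X →L[𝕜] X) ((((γ g).1 * g : G).1 : X →L[𝕜] X) yi) := by
    have : T = a⁻¹ * ((γ g).1 * g) := by
      rw [ha, hγgh, hTdef]; group
    rw [this]; rfl
  have h6 : yi = ((a⁻¹).1 : X →L[𝕜] X) ((a.1 : X →L[𝕜] X) yi) := by
    have : ((a⁻¹ * a : G).1 : X →L[𝕜] X) yi = yi := by rw [inv_mul_cancel]; rfl
    exact this.symm
  have h7 : ((T.1 : X →L[𝕜] X) - 1) yi =
      ((a⁻¹).1 : X →L[𝕜] X) ((((γ g).1 * g : G).1 : X →L[𝕜] X) yi - (a.1 : X →L[𝕜] X) yi) := by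
    rw [map_sub, ← h5, ← h6]; rfl
  have h8 : ‖(((γ g).1 * g : G).1 : X →L[𝕜] X) yi - (a.1 : X →L[𝕜] X) yi‖ ≤ 2 * δ := by
    have e1 := hball g i
    have e2 := hball h i
    have e3 : (((γ g).1 * g : G).1 : X →L[𝕜] X) yi - (a.1 : X →L[𝕜] X) yi =
      ((((γ g).1 * g : G).1 : X →L[𝕜] X) yi - d i) - ((a.1 : X →L[𝕜] X) yi - d i) := by abel
    rw [e3]
    calc _ ≤ _ := norm_sub_le _ _
      _ ≤ δ + δ := add_le_add e1 e2
      _ = 2 * δ := by ring
  have h9 : ‖((T.1 : X →L[𝕜] X) - 1) yi‖ ≤ C * (2 * δ) := by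
    rw [h7]
    exact (((a⁻¹).1 : X →L[𝕜] X).le_opNorm _).trans
      (mul_le_mul (hC _ (a⁻¹).2) h8 (norm_nonneg _) (by linarith))
  have h10 : ε ≤ C * (C * (2 * δ)) := hi.trans (mul_le_mul_of_nonneg_left h9 (by linarith))
  have h11 : C * (C * (2 * δ)) = ε / 2 := by
    rw [hδ]; field_simp; ring
  linarith

end Pool.Agent.Work.MP_80a07b_an
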