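import Pool.Agent.Work.MP_80a07b_an.Main

open Topology Filter

namespace Pool.Agent.Work.MP_80a07b_an

variable {𝕜 : Type*} [RCLike 𝕜] {X : Type*} [NormedAddCommGroup X] [NormedSpace 𝕜 X]

/-- The compact perturbations of the identity among the unimodular multiples of elements of `G`. -/
def twisted (G : Subgroup (X →L[𝕜] X)ˣ) : Subgroup (X →L[𝕜] X)ˣ where
  carrier := {T | IsCompactOperator ⇑((T : X →L[𝕜] X) - 1) ∧
    ∃ ε : 𝕜, ‖ε‖ = 1 ∧ ∃ g ∈ G, (T : X →L[𝕜] X) = ε • (g : X →L[𝕜] X)}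
  one_mem' := by
    refine ⟨?_, 1, by simp, 1, G.one_mem, by simp⟩
    have : ((1 : (X →L[𝕜] X)ˣ) : X →L[𝕜] X) - 1 = 0 := by simp
    rw [this]
    exact isCompactOperator_zero
  mul_mem' := by
    rintro S T ⟨hS, ε, hε, g, hg, hSg⟩ ⟨hT, ε', hε', g', hg', hTg⟩
    refine ⟨?_, ε * ε', by simp [hε, hε'], g * g', G.mul_mem hg hg', ?_⟩
    · have h1 : ((S * T : (X →L[𝕜] X)ˣ) : X →L[𝕜] X) - 1 =
          (S : X →L[𝕜] X) ∘L ((T : X →L[𝕜] X) - 1) + ((S : X →L[𝕜] X) - 1) := by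
        ext x
        simp
      rw [h1]
      exact (hT.clm_comp (S : X →L[𝕜] X)).add hS
    · rw [Units.val_mul, hSg, hTg, Units.val_mul, smul_mul_smul_comm]
  inv_mem' := by
    rintro T ⟨hT, ε, hε, g, hg, hTg⟩
    have hε0 : ε ≠ 0 := by
      intro h
      rw [h] at hε
      simp at hε
    refine ⟨?_, ε⁻¹, by simp [hε], g⁻¹, G.inv_mem hg, ?_⟩
    · have h1 : ((T⁻¹ : (X →L[𝕜] X)ˣ) : X →L[𝕜] X) - 1 =
          -(((T⁻¹ : (X →L[𝕜] X)ˣ) : X →L[𝕜] X) ∘L ((T : X →L[𝕜] X) - 1)) := by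
        have h2 : ((T⁻¹ : (X →L[𝕜] X)ˣ) : X →L[𝕜] X) ∘L ((T : X →L[𝕜] X) - 1) =
            ((T⁻¹ : (X →L[𝕜] X)ˣ) : X →L[𝕜] X) * ((T : X →L[𝕜] X) - 1) := rfl
        rw [h2, mul_sub, Units.inv_mul, mul_one]
        abel
      rw [h1]
      exact (hT.clm_comp ((T⁻¹ : (X →L[𝕜] X)ˣ) : X →L[𝕜] X)).neg
    · rw [← Units.inv_eq_of_mul_eq_one_right (u := T)
        (a := ε⁻¹ • ((g⁻¹ : (X →L[𝕜] X)ˣ) : X →L[𝕜] X))]
      rw [hTg, smul_mul_smul_comm, mul_inv_cancel₀ hε0, Units.mul_inv, one_smul]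

/-- A finite cover of the unit circle by small arcs, given by a colouring. -/
theorem exists_arcs (δ : ℝ) (hδ : 0 < δ) :
    ∃ (t : Finset 𝕜) (c : 𝕜 → t), ∀ a b : 𝕜, ‖a‖ = 1 → ‖b‖ = 1 → c a = c b → ‖a - b‖ < δ := by
  classical
  have h1 : TotallyBounded (Metric.sphere (0 : 𝕜) 1) := (isCompact_sphere 0 1).totallyBounded
  obtain ⟨t, -, htf, ht⟩ := Metric.finite_approx_of_totallyBounded h1 (δ / 2) (by positivity)
  have hsph : (1 : 𝕜) ∈ Metric.sphere (0 : 𝕜) 1 := by simp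
  have hex : ∀ a : 𝕜, ∃ u : htf.toFinset, ‖a‖ = 1 → ‖a - u‖ < δ / 2 := by
    intro a
    by_cases ha : ‖a‖ = 1
    · have h2 : a ∈ Metric.sphere (0 : 𝕜) 1 := by simpa using ha
      have h3 := ht h2
      simp only [Set.mem_iUnion, Metric.mem_ball, dist_eq_norm, exists_prop] at h3
      obtain ⟨u, hu, hu2⟩ := h3
      exact ⟨⟨u, by simpa using hu⟩, fun _ => hu2⟩
    · have h3 := ht hsph
      simp only [Set.mem_iUnion, Metric.mem_ball, dist_eq_norm, exists_prop] at h3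
      obtain ⟨u, hu, hu2⟩ := h3
      exact ⟨⟨u, by simpa using hu⟩, fun h => absurd h ha⟩
  choose c hc using hex
  refine ⟨htf.toFinset, c, fun a b ha hb hab => ?_⟩
  have h1 := hc a ha
  have h2 := hc b hb
  rw [← hab] at h2
  have h3 : a - b = (a - c a) - (b - c a) := by ring
  rw [h3]
  calc _ ≤ ‖a - c a‖ + ‖b - c a‖ := norm_sub_le _ _
    _ < δ / 2 + δ / 2 := add_lt_add h1 h2
    _ = δ := by ring

/-- If unimodular multiples of two elements of a discrete bounded group are close on the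
discreteness witnesses, the two elements agree. -/
theorem eq_of_close (G : Subgroup (X →L[𝕜] X)ˣ)
    (C : ℝ) (hC1 : 1 ≤ C) (hC : ∀ g ∈ G, ‖(g : X →L[𝕜] X)‖ ≤ C)
    (s : Finset X) (r : ℝ)
    (hs : ∀ h ∈ G, (∀ x ∈ s, ‖(h : X →L[𝕜] X) x - x‖ < r) → h = 1)
    (δ : ℝ) (hδ0 : 0 < δ) (hδ : ∀ x ∈ s, C * (δ * (C * ‖x‖) + δ) < r)
    (g g' : (X →L[𝕜] X)ˣ) (hg : g ∈ G) (hg' : g' ∈ G) (a b : 𝕜) (ha : ‖a‖ = 1)
    (hab : ‖a - b‖ ≤ δ)
    (hclose : ∀ x ∈ s, ‖a • (g : X →L[𝕜] X) x - b • (g' : X →L[𝕜] X) x‖ ≤ δ) : g = g' := by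
  have h1 : g⁻¹ * g' = 1 := by
    refine hs _ (G.mul_mem (G.inv_mem hg) hg') fun x hx => ?_
    have h2 : (g⁻¹ * g' : (X →L[𝕜] X)ˣ).val x - x =
        (g⁻¹ : (X →L[𝕜] X)ˣ).val ((g' : X →L[𝕜] X) x - (g : X →L[𝕜] X) x) := by
      have : (g⁻¹ * g : (X →L[𝕜] X)ˣ).val x = x := by rw [inv_mul_cancel]; rfl
      rw [map_sub]
      have h3 : (g⁻¹ : (X →L[𝕜] X)ˣ).val ((g : X →L[𝕜] X) x) = x := this
      rw [h3]; rfl
    have h4 : ‖(g' : X →L[𝕜] X) x - (g : X →L[𝕜] X) x‖ ≤ δ * (C * ‖x‖) + δ := by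
      have h5 : a • ((g' : X →L[𝕜] X) x - (g : X →L[𝕜] X) x) =
          (a - b) • (g' : X →L[𝕜] X) x -
            (a • (g : X →L[𝕜] X) x - b • (g' : X →L[𝕜] X) x) := by
        rw [smul_sub, sub_smul]; abel
      have h6 : ‖(g' : X →L[𝕜] X) x - (g : X →L[𝕜] X) x‖ =
          ‖a • ((g' : X →L[𝕜] X) x - (g : X →L[𝕜] X) x)‖ := by
        rw [norm_smul, ha, one_mul]
      rw [h6, h5]
      refine (norm_sub_le _ _).trans (add_le_add ?_ (hclose x hx))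
      rw [norm_smul]
      refine mul_le_mul hab ?_ (norm_nonneg _) hδ0.le
      exact ((g' : X →L[𝕜] X).le_opNorm _).trans
        (mul_le_mul_of_nonneg_right (hC _ hg') (norm_nonneg _))
    rw [h2]
    refine lt_of_le_of_lt ?_ (hδ x hx)
    exact (((g⁻¹ : (X →L[𝕜] X)ˣ) : X →L[𝕜] X).le_opNorm _).trans
      (mul_le_mul (hC _ (G.inv_mem hg)) h4 (norm_nonneg _) (by linarith))
  exact inv_mul_eq_one.1 h1

theorem exists_delta (C : ℝ) (s : Finset X) (r : ℝ) (hr : 0 < r) :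
    ∃ δ : ℝ, 0 < δ ∧ ∀ x ∈ s, C * (δ * (C * ‖x‖) + δ) < r := by
  have h1 : ∀ x ∈ s, ∀ᶠ δ : ℝ in 𝓝[>] 0, C * (δ * (C * ‖x‖) + δ) < r := by
    intro x _
    have h2 : Tendsto (fun δ : ℝ => C * (δ * (C * ‖x‖) + δ)) (𝓝[>] 0)
        (𝓝 (C * (0 * (C * ‖x‖) + 0))) := by
      have : Continuous fun δ : ℝ => C * (δ * (C * ‖x‖) + δ) := by fun_prop
      exact (this.tendsto 0).mono_left nhdsWithin_le_nhds
    exact h2.eventually_lt_const (by simpa using hr)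
  have h3 : ∀ᶠ δ : ℝ in 𝓝[>] 0, ∀ x ∈ s, C * (δ * (C * ‖x‖) + δ) < r :=
    (Filter.eventually_all_finset s).2 h1
  obtain ⟨δ, hδ, hδ0⟩ := (h3.and self_mem_nhdsWithin).exists
  exact ⟨δ, hδ0, hδ⟩

/-- A bounded group of operators of the form unimodular scalar plus compact on a reflexive space
whose identity is isolated for the topology of pointwise convergence is finite. -/
theorem finite_of_compact_perturbation_scalar
    (hrefl : Function.Surjective (NormedSpace.inclusionInDoubleDual 𝕜 X))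
    (G : Subgroup (X →L[𝕜] X)ˣ)
    (C : ℝ) (hC : ∀ g ∈ G, ‖(g : X →L[𝕜] X)‖ ≤ C)
    (hcpt : ∀ g ∈ G, ∃ ε : 𝕜, ‖ε‖ = 1 ∧ IsCompactOperator ⇑((g : X →L[𝕜] X) - ε • 1))
    (s : Finset X) (r : ℝ) (hr : 0 < r)
    (hs : ∀ h ∈ G, (∀ x ∈ s, ‖(h : X →L[𝕜] X) x - x‖ < r) → h = 1) :
    Finite G := by
  classical
  by_cases hfd : FiniteDimensional 𝕜 X
  · -- finite-dimensional spaces: every operator is compact
    have : ProperSpace X := FiniteDimensional.proper 𝕜 X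
    exact finite_of_compact_perturbation hrefl G C hC
      (fun g _ => isCompactOperator_of_locallyCompactSpace_dom _) s r hr hs
  have hid : ∀ a : 𝕜, IsCompactOperator ⇑(a • (1 : X →L[𝕜] X)) → a = 0 := by
    intro a ha
    by_contra ha0
    apply hfd
    have h1 : IsCompactOperator (id : X → X) := by
      have h2 := ha.smul a⁻¹
      have h3 : (a⁻¹ • ⇑(a • (1 : X →L[𝕜] X)) : X → X) = id := by
        ext x
        simp [smul_smul, inv_mul_cancel₀ ha0]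
      rwa [h3] at h2
    exact FiniteDimensional.of_isCompactOperator_id (𝕜 := 𝕜) h1
  set C' := max C 1 with hC'
  have hC1 : 1 ≤ C' := le_max_right _ _
  have hCC : ∀ g ∈ G, ‖(g : X →L[𝕜] X)‖ ≤ C' := fun g hg => (hC g hg).trans (le_max_left _ _)
  obtain ⟨δ, hδ0, hδ⟩ := exists_delta C' s r hr
  obtain ⟨t, c, hc⟩ := exists_arcs (𝕜 := 𝕜) δ hδ0
  -- the near-identity elements of the twisted group are finite in number
  let S : Set (X →L[𝕜] X)ˣ := {T | T ∈ twisted G ∧ ∀ x ∈ s, ‖(T : X →L[𝕜] X) x - x‖ < δ / 2}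
  have hSfin : S.Finite := by
    have hch : ∀ T : S, ∃ ε : 𝕜, ‖ε‖ = 1 ∧ ∃ g ∈ G, (T.1 : X →L[𝕜] X) = ε • (g : X →L[𝕜] X) :=
      fun T => T.2.1.2
    choose ε hε g hg hT using hch
    have hinj : Function.Injective (fun T : S => c (ε T)) := by
      intro T T' hTT
      have h1 : ‖ε T - ε T'‖ ≤ δ := (hc _ _ (hε T) (hε T') hTT).le
      have h2 : g T = g T' := by
        refine eq_of_close G C' hC1 hCC s r hs δ hδ0 hδ (g T) (g T') (hg T) (hg T') (ε T) (ε T')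
          (hε T) h1 fun x hx => ?_
        have e1 : ε T • ((g T : (X →L[𝕜] X)ˣ) : X →L[𝕜] X) x = (T.1 : X →L[𝕜] X) x := by
          rw [hT T]; rfl
        have e2 : ε T' • ((g T' : (X →L[𝕜] X)ˣ) : X →L[𝕜] X) x = (T'.1 : X →L[𝕜] X) x := by
          rw [hT T']; rfl
        rw [e1, e2]
        have e3 : (T.1 : X →L[𝕜] X) x - (T'.1 : X →L[𝕜] X) x =
            ((T.1 : X →L[𝕜] X) x - x) - ((T'.1 : X →L[𝕜] X) x - x) := by abel
        rw [e3]
        calc _ ≤ _ := norm_sub_le _ _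
          _ ≤ δ / 2 + δ / 2 := add_le_add (T.2.2 x hx).le (T'.2.2 x hx).le
          _ = δ := by ring
      -- the two scalars agree
      have h3 : ε T = ε T' := by
        have h4 : IsCompactOperator ⇑((T.1 : X →L[𝕜] X) - (T'.1 : X →L[𝕜] X)) := by
          have h5 : (T.1 : X →L[𝕜] X) - (T'.1 : X →L[𝕜] X) =
            ((T.1 : X →L[𝕜] X) - 1) - ((T'.1 : X →L[𝕜] X) - 1) := by abel
          rw [h5]
          exact T.2.1.1.sub T'.2.1.1
        have h6 : ((T.1 : X →L[𝕜] X) - (T'.1 : X →L[𝕜] X)) ∘L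
            (((g T)⁻¹ : (X →L[𝕜] X)ˣ) : X →L[𝕜] X) = (ε T - ε T') • (1 : X →L[𝕜] X) := by
          have h7 : ((T.1 : X →L[𝕜] X) - (T'.1 : X →L[𝕜] X)) ∘L
            (((g T)⁻¹ : (X →L[𝕜] X)ˣ) : X →L[𝕜] X) = ((T.1 : X →L[𝕜] X) - (T'.1 : X →L[𝕜] X)) *
            (((g T)⁻¹ : (X →L[𝕜] X)ˣ) : X →L[𝕜] X) := rfl
          rw [h7, hT T, hT T', ← h2, ← sub_smul, smul_mul_assoc, Units.mul_inv]
        have h8 := h4.comp_clm (((g T)⁻¹ : (X →L[𝕜] X)ˣ) : X →L[𝕜] X)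
        have h9 : IsCompactOperator ⇑((ε T - ε T') • (1 : X →L[𝕜] X)) := by
          rw [← h6]; exact h8
        exact sub_eq_zero.1 (hid _ h9)
      apply Subtype.ext
      apply Units.ext
      rw [hT T, hT T', h2, h3]
    have : Finite S := Finite.of_injective _ hinj
    exact Set.toFinite S
  -- hence the identity is isolated in the twisted group
  have hTfin : Finite (twisted G) := by
    have hch : ∀ T : (X →L[𝕜] X)ˣ, ∃ x : X, T ≠ 1 → (T : X →L[𝕜] X) x ≠ x := by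
      intro T
      by_cases hT : T = 1
      · exact ⟨0, fun h => absurd hT h⟩
      · by_contra hcon
        push Not at hcon
        apply hT
        apply Units.ext
        ext x
        exact (hcon x).2
    choose w hw using hch
    obtain ⟨r', hr'0, hr'⟩ : ∃ r' : ℝ, 0 < r' ∧
        ∀ T ∈ S, T ≠ 1 → r' ≤ ‖(T : X →L[𝕜] X) (w T) - w T‖ := by
      have h1 : ∀ T ∈ S, ∀ᶠ r' : ℝ in 𝓝[>] 0, T ≠ 1 → r' ≤ ‖(T : X →L[𝕜] X) (w T) - w T‖ := by
        intro T _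
        by_cases hT : T = 1
        · exact Eventually.of_forall fun _ h => absurd hT h
        · have : 0 < ‖(T : X →L[𝕜] X) (w T) - w T‖ := by
            rw [norm_pos_iff, sub_ne_zero]
            exact hw T hT
          have h2 : ∀ᶠ r' : ℝ in 𝓝 0, r' ≤ ‖(T : X →L[𝕜] X) (w T) - w T‖ :=
            (eventually_le_nhds this)
          exact (h2.filter_mono nhdsWithin_le_nhds).mono fun _ h _ => h
      obtain ⟨r', hr', hr'0⟩ :=
        (((Filter.eventually_all_finite hSfin).2 h1).and self_mem_nhdsWithin).exists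
      exact ⟨r', hr'0, hr'⟩
    refine finite_of_compact_perturbation hrefl (twisted G) C' ?_ (fun T hT => hT.1)
      (s ∪ hSfin.toFinset.image w) (min (δ / 2) r') (lt_min (by positivity) hr'0) ?_
    · rintro T ⟨-, ε, hε, g, hg, hT⟩
      rw [hT, norm_smul, hε, one_mul]
      exact hCC g hg
    · intro T hT hx
      by_contra hT1
      have hTS : T ∈ S := ⟨hT, fun x hxs =>
        (hx x (Finset.mem_union_left _ hxs)).trans_le (min_le_left _ _)⟩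
      have h1 := hx (w T) (Finset.mem_union_right _ (Finset.mem_image_of_mem _
        (hSfin.mem_toFinset.2 hTS)))
      exact absurd (h1.trans_le (min_le_right _ _)) (not_lt.2 (hr' T hTS hT1))
  -- conclusion
  have hch : ∀ g : G, ∃ (ε : 𝕜) (T : twisted G), ‖ε‖ = 1 ∧
      (g.1 : X →L[𝕜] X) = ε • (T.1 : X →L[𝕜] X) := by
    intro g
    obtain ⟨ε, hε, hg⟩ := hcpt g.1 g.2
    have hε0 : ε ≠ 0 := by
      intro h
      rw [h] at hε
      simp at hε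
    let T : (X →L[𝕜] X)ˣ :=
      ⟨ε⁻¹ • (g.1 : X →L[𝕜] X), ε • (((g.1)⁻¹ : (X →L[𝕜] X)ˣ) : X →L[𝕜] X), by
        rw [smul_mul_smul_comm, inv_mul_cancel₀ hε0, Units.mul_inv, one_smul], by
        rw [smul_mul_smul_comm, mul_inv_cancel₀ hε0, Units.inv_mul, one_smul]⟩
    have hT : T ∈ twisted G := by
      refine ⟨?_, ε⁻¹, by simp [hε], g.1, g.2, rfl⟩
      have h1 : (T : X →L[𝕜] X) - 1 = ε⁻¹ • ((g.1 : X →L[𝕜] X) - ε • 1) := by
        rw [smul_sub, smul_smul, inv_mul_cancel₀ hε0, one_smul]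
      rw [h1]
      exact hg.smul ε⁻¹
    refine ⟨ε, ⟨T, hT⟩, hε, ?_⟩
    change (g.1 : X →L[𝕜] X) = ε • (ε⁻¹ • (g.1 : X →L[𝕜] X))
    rw [smul_smul, mul_inv_cancel₀ hε0, one_smul]
  choose ε T hε hg using hch
  have hTC : ∀ g : G, ‖((T g).1 : X →L[𝕜] X)‖ ≤ C' := by
    intro g
    have h1 := hCC g.1 g.2
    rw [hg g, norm_smul, hε g, one_mul] at h1
    exact h1
  have hinj : Function.Injective (fun g : G => (T g, c (ε g))) := by
    intro g g' hgg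
    simp only [Prod.mk.injEq] at hgg
    obtain ⟨h1, h2⟩ := hgg
    have h3 : ‖ε g - ε g'‖ < δ := hc _ _ (hε g) (hε g') h2
    apply Subtype.ext
    have h4 : (g.1)⁻¹ * g'.1 = 1 := by
      refine hs _ (G.mul_mem (G.inv_mem g.2) g'.2) fun x hx => ?_
      have e0 : ((g.1)⁻¹ : (X →L[𝕜] X)ˣ).val ((g.1 : X →L[𝕜] X) x) = x := by
        have : ((g.1)⁻¹ * g.1 : (X →L[𝕜] X)ˣ).val x = x := by rw [inv_mul_cancel]; rfl
        exact this
      have e1 : ((g.1)⁻¹ * g'.1 : (X →L[𝕜] X)ˣ).val x - x =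
          ((g.1)⁻¹ : (X →L[𝕜] X)ˣ).val ((g'.1 : X →L[𝕜] X) x - (g.1 : X →L[𝕜] X) x) := by
        rw [map_sub, e0]; rfl
      have e2 : (g'.1 : X →L[𝕜] X) x - (g.1 : X →L[𝕜] X) x =
          (ε g' - ε g) • ((T g).1 : X →L[𝕜] X) x := by
        rw [hg g, hg g', ← h1, sub_smul]; rfl
      have e3 : ‖(g'.1 : X →L[𝕜] X) x - (g.1 : X →L[𝕜] X) x‖ ≤ δ * (C' * ‖x‖) + δ := by
        rw [e2, norm_smul, norm_sub_rev]
        have : ‖ε g - ε g'‖ * ‖((T g).1 : X →L[𝕜] X) x‖ ≤ δ * (C' * ‖x‖) :=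
          mul_le_mul h3.le (((T g).1 : X →L[𝕜] X).le_of_opNorm_le (hTC g) x) (norm_nonneg _)
            hδ0.le
        linarith
      rw [e1]
      refine lt_of_le_of_lt ?_ (hδ x hx)
      exact ((((g.1)⁻¹ : (X →L[𝕜] X)ˣ) : X →L[𝕜] X).le_opNorm _).trans
        (mul_le_mul (hCC _ (G.inv_mem g.2)) e3 (norm_nonneg _) (by linarith))
    exact inv_mul_eq_one.1 h4
  exact Finite.of_injective _ hinj

end Pool.Agent.Work.MP_80a07b_an
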